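import Mathlib
import Pool.Agent.H627.LR.Gr

/-!
The local gain in terms of the Hilbert function of the points.
-/

set_option autoImplicit false
set_option linter.unusedSectionVars false

namespace Pool.Agent.H627.LU

open NumberField Module MvPolynomial
open Pool.Agent.W238.Leh
open Pool.Agent.H627.LP
open Pool.Agent.H627.LR (GR)

noncomputable section

section Span

variable {M : Type*} [Field M] {ι : Type*} [Fintype ι]

lemma finrank_biSup_le {α : Type*} [DecidableEq α] (S : Finset α)
    (W : α → Submodule M (ι → M)) {k : ℕ} (h : ∀ b ∈ S, finrank M (W b) ≤ k) :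
    finrank M (⨆ b ∈ S, W b : Submodule M (ι → M)) ≤ S.card * k := by
  induction S using Finset.induction_on with
  | empty => simp
  | insert a S ha ih =>
    rw [Finset.iSup_insert, Finset.card_insert_of_notMem ha]
    refine (Submodule.finrank_add_le_finrank_add_finrank _ _).trans ?_
    have h1 := h a (Finset.mem_insert_self _ _)
    have h2 := ih fun b hb => h b (Finset.mem_insert_of_mem hb)
    calc _ ≤ k + S.card * k := Nat.add_le_add h1 h2
      _ = _ := by ring

end Span

section EL

variable {K : Type*} [Field K] {L : Type*} [Field L] [Algebra K L] {N : ℕ}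
variable {ι : Type*} [Fintype ι]

lemma lin_mul_mem {p : ι → Fin (N + 1) → L} {m : ℕ} {x : ι → L} (hx : x ∈ EL K p m)
    (t a : Fin (N + 1)) (w : L) : (fun i => (p i t - w * p i a) * x i) ∈ EL K p (m + 1) := by
  have h1 : (fun i => (p i t - w * p i a) * x i) =
      (fun i => p i t * x i) - w • fun i => p i a * x i := by
    funext i
    simp only [Pi.sub_apply, Pi.smul_apply, smul_eq_mul]
    ring
  rw [h1]
  exact Submodule.sub_mem _ (mul_mem_EL hx t) (Submodule.smul_mem _ _ (mul_mem_EL hx a))

lemma lin_pow_mem {p : ι → Fin (N + 1) → L} {m : ℕ} {x : ι → L} (hx : x ∈ EL K p m)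
    (t a : Fin (N + 1)) (w : L) (k : ℕ) :
    (fun i => (p i t - w * p i a) ^ k * x i) ∈ EL K p (m + k) := by
  induction k with
  | zero => simpa using hx
  | succ k ih =>
    have h1 := lin_mul_mem ih t a w
    have h2 : (fun i => (p i t - w * p i a) ^ (k + 1) * x i) =
        fun i => (p i t - w * p i a) * ((p i t - w * p i a) ^ k * x i) := by
      funext i
      ring
    rw [h2]
    exact h1

lemma prod_lin_mem {p : ι → Fin (N + 1) → L} {m : ℕ} {x : ι → L} (hx : x ∈ EL K p m)
    (a : Fin (N + 1)) (w : Fin (N + 1) → L) (α : Fin (N + 1) → ℕ) (S : Finset (Fin (N + 1))) :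
    (fun i => (∏ t ∈ S, (p i t - w t * p i a) ^ α t) * x i) ∈ EL K p (m + ∑ t ∈ S, α t) := by
  classical
  induction S using Finset.induction_on with
  | empty => simpa using hx
  | insert t S ht ih =>
    have h1 := lin_pow_mem ih t a (w t) (α t)
    rw [Finset.sum_insert ht]
    have h2 : (fun i => (∏ t ∈ insert t S, (p i t - w t * p i a) ^ α t) * x i) =
        fun i => (p i t - w t * p i a) ^ α t * ((∏ t ∈ S, (p i t - w t * p i a) ^ α t) * x i) := by
      funext i
      rw [Finset.prod_insert ht]
      ring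
    have h3 : m + (α t + ∑ t ∈ S, α t) = m + ∑ t ∈ S, α t + α t := by ring
    rw [h2, h3]
    exact h1

lemma pow_mem {p : ι → Fin (N + 1) → L} (a : Fin (N + 1)) (k : ℕ) :
    (fun i => p i a ^ k) ∈ EL K p k := by
  induction k with
  | zero => simpa using one_mem_EL p
  | succ k ih =>
    have h1 := mul_mem_EL ih a
    have h2 : (fun i => p i a ^ (k + 1)) = fun i => p i a * p i a ^ k := by
      funext i
      ring
    rw [h2]
    exact h1

/-- monomials in local coordinates, homogenised -/
lemma homog_mem {p : ι → Fin (N + 1) → L} (a : Fin (N + 1)) (w : Fin (N + 1) → L)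
    (α : Fin (N + 1) → ℕ) {m : ℕ} (hm : ∑ t, α t ≤ m) :
    (fun i => (∏ t, (p i t - w t * p i a) ^ α t) * p i a ^ (m - ∑ t, α t)) ∈ EL K p m := by
  have h1 := prod_lin_mem (pow_mem (K := K) (p := p) a (m - ∑ t, α t)) a w α Finset.univ
  rwa [Nat.sub_add_cancel hm] at h1

end EL

lemma box_sum_le {N s : ℕ} {a : Fin (N + 1)} {α : Fin (N + 1) →₀ ℕ} (hα : α ∈ box s a) :
    ∑ t, α t ≤ N * s := by
  classical
  rw [mem_box] at hα
  rw [← Finset.add_sum_erase _ _ (Finset.mem_univ a), hα.1, zero_add]
  calc ∑ t ∈ Finset.univ.erase a, α t ≤ ∑ _t ∈ Finset.univ.erase a, s := by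
        refine Finset.sum_le_sum fun t ht => ?_
        exact (hα.2 t (Finset.ne_of_mem_erase ht)).le
    _ = N * s := by
        rw [Finset.sum_const, Finset.card_erase_of_mem (Finset.mem_univ _), Finset.card_univ,
          Fintype.card_fin, smul_eq_mul, Nat.add_sub_cancel]

section Local

variable {K : Type} [Field K] [NumberField K] {M : Type} [Field M] [NumberField M] [Algebra K M]
  {N : ℕ} {F : Fin (N + 1) → MvPolynomial (Fin (N + 1)) K} {q : ℕ} {v : FinitePlace M}

variable {ι : Type} [Fintype ι] [DecidableEq ι]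

/-- **the local gain** -/
theorem local_gain (hR : GR v F q) (hF : ∀ i, (F i).IsHomogeneous q) (l : List ℕ)
    (Φ : ι → MvPolynomial (Fin (N + 1)) K) (hΦ : ∀ j, Φ j ∈ GG F l) (p : ι → Fin (N + 1) → M)
    (hp : ∀ i, p i ≠ 0) (E : Finset ι) (c : ι → ι) {η : ℝ} (hη : 0 < η) (hη1 : η < 1)
    (hnear : ∀ i, i ∉ E → Near v η (p i) (p (c i))) {t : ℕ}
    (ht : ((Finset.univ \ E).image c).card ≤ t) (s : ℕ) :
    v (Matrix.of fun i j => aeval (p i) (Φ j)).det ≤
      (∏ i, nmf v (p i) ^ ldeg q l) *
        (η ^ s) ^ (Fintype.card ι - (E.card + t * finrank M (EL K p (N * s)))) := by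
  classical
  obtain ⟨c', hc'1, hc'2⟩ : ∃ c' : ι → ι, (∀ i ∈ E, c' i = i) ∧ ∀ i, i ∉ E → c' i = c i :=
    ⟨fun i => if i ∈ E then i else c i, fun i hi => if_pos hi, fun i hi => if_neg hi⟩
  have hnear' : ∀ i, Near v η (p i) (p (c' i)) := by
    intro i
    by_cases hi : i ∈ E
    · rw [hc'1 i hi]
      intro s t
      have : p i s * p i t - p i t * p i s = 0 := by ring
      rw [this, map_zero]
      exact mul_nonneg hη.le (mul_nonneg (nmf_nonneg v _) (nmf_nonneg v _))
    · rw [hc'2 i hi]
      exact hnear i hi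
  set m := ldeg q l with hm
  choose a ha using fun i => exists_nmf (v := v) (p i)
  -- normalised vectors
  have hpa : ∀ i, v (p i (a (c' i))) = nmf v (p i) := fun i =>
    (hnear' i).coord hη1 (hp i) (hp (c' i)) (ha (c' i))
  have hpa0 : ∀ i, p i (a (c' i)) ≠ 0 := by
    intro i h0
    have h1 := hpa i
    rw [h0, map_zero] at h1
    have := nmf_pos v (hp i)
    linarith
  have hca0 : ∀ i, p i (a i) ≠ 0 := by
    intro i h0
    have h1 := ha i
    rw [h0, map_zero] at h1
    have := nmf_pos v (hp i)
    linarith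
  set u : ι → Fin (N + 1) → M := fun i => (p i (a i))⁻¹ • p i with hu
  set z : ι → Fin (N + 1) → M := fun i => (p i (a (c' i)))⁻¹ • p i with hz
  have hui : ∀ i t, v (u i t) ≤ 1 := by
    intro i t
    simp only [hu, Pi.smul_apply, smul_eq_mul, map_mul, map_inv₀, ha]
    have := nmf_pos v (hp i)
    rw [inv_mul_le_iff₀ this, mul_one]
    exact le_nmf v _ _
  set δ : ι → Fin (N + 1) → M := fun i => z i - u (c' i) with hδ
  have hδ0 : ∀ i, δ i (a (c' i)) = 0 := by
    intro i
    simp only [hδ, hz, hu, Pi.sub_apply, Pi.smul_apply, smul_eq_mul]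
    rw [inv_mul_cancel₀ (hpa0 i), inv_mul_cancel₀ (hca0 (c' i)), sub_self]
  have hδv : ∀ i t, v (δ i t) ≤ η := by
    intro i t
    have h1 : δ i t = (p i t * p (c' i) (a (c' i)) - p i (a (c' i)) * p (c' i) t) *
        ((p i (a (c' i)))⁻¹ * (p (c' i) (a (c' i)))⁻¹) := by
      simp only [hδ, hz, hu, Pi.sub_apply, Pi.smul_apply, smul_eq_mul]
      have h2 := hpa0 i
      have h3 := hca0 (c' i)
      field_simp
    rw [h1, map_mul, map_mul, map_inv₀, map_inv₀, hpa, ha]
    have h2 := nmf_pos v (hp i)
    have h3 := nmf_pos v (hp (c' i))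
    have h4 := hnear' i t (a (c' i))
    rw [← mul_inv, ← div_eq_mul_inv, div_le_iff₀ (mul_pos h2 h3)]
    exact h4
  -- the expansions
  set ψ : ι → ι → MvPolynomial (Fin (N + 1)) M := fun b j =>
    bind₁ (fun t => C (u b t) + X t) (map (algebraMap K M) (Φ j)) with hψ
  have hψint : ∀ b j, IntP v (ψ b j) := by
    intro b j
    refine IntP.bind (fun t => (IntP.const (hui b t)).add (IntP.var t)) ?_
    exact GG_intP hR.int l (hΦ j)
  have hψev : ∀ i j, eval (δ i) (ψ (c' i) j) = aeval (z i) (Φ j) := by
    intro i j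
    have h1 : eval (δ i) (ψ (c' i) j) =
        eval (fun t => eval (δ i) (C (u (c' i) t) + X t)) (map (algebraMap K M) (Φ j)) := by
      simp only [hψ]
      exact eval₂Hom_bind₁ _ _ _ _
    rw [h1, eval_map, aeval_def]
    congr 1
    funext t
    rw [map_add, eval_C, eval_X]
    simp only [hδ, Pi.sub_apply]
    ring
  set X' : Matrix ι ι M := Matrix.of fun i j =>
    ∑ α ∈ box s (a (c' i)), (ψ (c' i) j).coeff α * ∏ t, δ i t ^ α t with hX'
  set W' : Matrix ι ι M := Matrix.of fun i j => aeval (z i) (Φ j) with hW'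
  have hY : ∀ i j, v ((W' - X') i j) ≤ η ^ s := by
    intro i j
    have h1 : (W' - X') i j = eval (δ i) (ψ (c' i) j) -
        ∑ α ∈ box s (a (c' i)), (ψ (c' i) j).coeff α * ∏ t, δ i t ^ α t := by
      rw [hψev]
      rfl
    rw [h1]
    exact expand (hψint _ _) hη.le hη1.le (hδ0 i) (hδv i) s
  have hX1 : ∀ i j, v (X' i j) ≤ 1 := by
    intro i j
    simp only [hX', Matrix.of_apply]
    refine v_sum_le v _ _ zero_le_one fun α _ => ?_
    rw [map_mul, map_prod]
    refine mul_le_one₀ (hψint _ _ _) (Finset.prod_nonneg fun i _ => v_nonneg v _) ?_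
    refine Finset.prod_le_one (fun i _ => v_nonneg v _) fun t _ => ?_
    rw [map_pow]
    exact pow_le_one₀ (v_nonneg v _) ((hδv i t).trans hη1.le)
  -- the rank
  set χ : ι → ι → ι → M := fun b j i => ∑ α ∈ box s (a b), (ψ b j).coeff α *
    ((∏ t, (p i t - u b t * p i (a b)) ^ α t) * p i (a b) ^ (N * s - ∑ t, α t)) with hχ
  have hχm : ∀ b j, χ b j ∈ EL K p (N * s) := by
    intro b j
    have h1 : χ b j = ∑ α ∈ box s (a b), (ψ b j).coeff α •
        fun i => (∏ t, (p i t - u b t * p i (a b)) ^ α t) * p i (a b) ^ (N * s - ∑ t, α t) := by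
      funext i
      rw [Finset.sum_apply]
      rfl
    rw [h1]
    exact Submodule.sum_mem _ fun α hα => Submodule.smul_mem _ _
      (homog_mem (a b) (u b) α (box_sum_le hα))
  set TT : ι → (ι → M) →ₗ[M] (ι → M) := fun b =>
    { toFun := fun x i => if i ∉ E ∧ c i = b then ((p i (a b)) ^ (N * s))⁻¹ * x i else 0
      map_add' := fun x y => by
        funext i
        simp only [Pi.add_apply]
        split_ifs <;> ring
      map_smul' := fun r x => by
        funext i
        simp only [Pi.smul_apply, smul_eq_mul, RingHom.id_apply]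
        split_ifs <;> ring } with hTT
  set U : Submodule M (ι → M) := Submodule.span M
      ((E.image fun i => (Pi.single i (1 : M) : ι → M) : Finset (ι → M)) : Set (ι → M)) ⊔
    ⨆ b ∈ (Finset.univ \ E).image c, (EL K p (N * s)).map (TT b) with hU
  have hUr : finrank M U ≤ E.card + t * finrank M (EL K p (N * s)) := by
    refine (Submodule.finrank_add_le_finrank_add_finrank _ _).trans (Nat.add_le_add ?_ ?_)
    · exact (finrank_span_finset_le_card _).trans Finset.card_image_le
    · refine (finrank_biSup_le _ _ fun b _ => Submodule.finrank_map_le (TT b) _).trans ?_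
      exact Nat.mul_le_mul_right _ ht
  have hcol : ∀ j, X'.col j ∈ U := by
    intro j
    have h1 : X'.col j = (∑ i ∈ E, X' i j • (Pi.single i (1 : M) : ι → M)) +
        ∑ b ∈ (Finset.univ \ E).image c, TT b (χ b j) := by
      funext i
      rw [Pi.add_apply, Finset.sum_apply, Finset.sum_apply]
      by_cases hi : i ∈ E
      · have h2 : ∑ b ∈ (Finset.univ \ E).image c, TT b (χ b j) i = 0 := by
          refine Finset.sum_eq_zero fun b _ => ?_
          simp only [hTT, LinearMap.coe_mk, AddHom.coe_mk]
          rw [if_neg (fun h => h.1 hi)]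
        rw [h2, add_zero, Finset.sum_eq_single i]
        · simp [Matrix.col]
        · intro k _ hki
          rw [Pi.smul_apply, Pi.single_eq_of_ne hki.symm, smul_zero]
        · intro h
          exact absurd hi h
      · have h2 : ∑ k ∈ E, (X' k j • (Pi.single k (1 : M) : ι → M)) i = 0 := by
          refine Finset.sum_eq_zero fun k hk => ?_
          have hki : i ≠ k := by
            rintro rfl
            exact hi hk
          rw [Pi.smul_apply, Pi.single_eq_of_ne hki, smul_zero]
        rw [h2, zero_add, Finset.sum_eq_single (c i)]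
        · simp only [hTT, LinearMap.coe_mk, AddHom.coe_mk]
          rw [if_pos ⟨hi, trivial⟩]
          simp only [Matrix.col, Matrix.transpose_apply, hX', Matrix.of_apply, hχ]
          have hc := hc'2 i hi
          rw [hc, Finset.mul_sum]
          refine Finset.sum_congr rfl fun α hα => ?_
          have hsum := box_sum_le hα
          have h0 : p i (a (c i)) ≠ 0 := by
            rw [← hc]
            exact hpa0 i
          have h3 : ∏ t, δ i t ^ α t = (p i (a (c i)) ^ (∑ t, α t))⁻¹ *
              ∏ t, (p i t - u (c i) t * p i (a (c i))) ^ α t := by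
            rw [← Finset.prod_pow_eq_pow_sum, ← Finset.prod_inv_distrib,
              ← Finset.prod_mul_distrib]
            refine Finset.prod_congr rfl fun t _ => ?_
            rw [← inv_pow, ← mul_pow]
            congr 1
            simp only [hδ, hz, Pi.sub_apply, Pi.smul_apply, smul_eq_mul]
            rw [hc]
            field_simp
          have h4 : p i (a (c i)) ^ (N * s) =
              p i (a (c i)) ^ (∑ t, α t) * p i (a (c i)) ^ (N * s - ∑ t, α t) := by
            rw [← pow_add, Nat.add_sub_cancel' hsum]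
          rw [h3, h4]
          have h5 := pow_ne_zero (∑ t, α t) h0
          have h6 := pow_ne_zero (N * s - ∑ t, α t) h0
          generalize (∏ t, (p i t - u (c i) t * p i (a (c i))) ^ α t) = Pr
          generalize p i (a (c i)) ^ (∑ t, α t) = y at h5 ⊢
          generalize p i (a (c i)) ^ (N * s - ∑ t, α t) = y' at h6 ⊢
          field_simp
        · intro b _ hb
          simp only [hTT, LinearMap.coe_mk, AddHom.coe_mk]
          rw [if_neg (fun h => hb h.2.symm)]
        · intro h
          exact absurd (Finset.mem_image_of_mem c (Finset.mem_sdiff.mpr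
            ⟨Finset.mem_univ i, hi⟩)) h
    rw [h1]
    refine Submodule.add_mem _ (Submodule.sum_mem _ fun i hi => ?_)
      (Submodule.sum_mem _ fun b hb => ?_)
    · refine Submodule.smul_mem _ _ (Submodule.mem_sup_left (Submodule.subset_span ?_))
      exact Finset.mem_coe.mpr (Finset.mem_image_of_mem _ hi)
    · refine Submodule.mem_sup_right ?_
      refine Submodule.mem_iSup_of_mem b (Submodule.mem_iSup_of_mem hb ?_)
      exact Submodule.mem_map_of_mem (hχm b j)
  set S : Submodule M (ι → M) := Submodule.span M (Set.range X'.row) with hS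
  have hSr : finrank M S ≤ E.card + t * finrank M (EL K p (N * s)) := by
    refine le_trans ?_ hUr
    rw [hS, ← Matrix.rank_eq_finrank_span_row, Matrix.rank_eq_finrank_span_cols]
    apply Submodule.finrank_mono
    rw [Submodule.span_le]
    rintro _ ⟨j, rfl⟩
    exact hcol j
  have hXS : ∀ i, X' i ∈ S := fun i => Submodule.subset_span ⟨i, rfl⟩
  have h1 := det_rank_le v X' (W' - X') (pow_nonneg hη.le s) (pow_le_one₀ hη.le hη1.le) hX1 hY S
    hSr hXS
  rw [add_sub_cancel] at h1
  -- scaling
  have h2 : (Matrix.of fun i j => aeval (p i) (Φ j)) =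
      Matrix.diagonal (fun i => p i (a (c' i)) ^ m) * W' := by
    ext i j
    rw [Matrix.diagonal_mul]
    simp only [Matrix.of_apply, hW']
    have h3 : p i = p i (a (c' i)) • z i := by
      simp only [hz]
      rw [smul_smul, mul_inv_cancel₀ (hpa0 i), one_smul]
    conv_lhs => rw [h3]
    exact aeval_smul_hom (GG_hom hF l (hΦ j)) _ _
  rw [h2, Matrix.det_mul, Matrix.det_diagonal, map_mul, map_prod]
  have h3 : ∏ i, v (p i (a (c' i)) ^ m) = ∏ i, nmf v (p i) ^ m :=
    Finset.prod_congr rfl fun i _ => by rw [map_pow, hpa]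
  rw [h3]
  refine mul_le_mul_of_nonneg_left h1 (Finset.prod_nonneg fun i _ => ?_)
  exact pow_nonneg (nmf_nonneg v _) _

end Local

end

end Pool.Agent.H627.LU
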