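import Mathlib
import Pool.Agent.H627.LU.Iq
import Pool.Agent.H627.LR.Cls
import Pool.Agent.H627.LP.Orb

/-!
Residue classes of points of projective space, closeness under bounded ramification, and the
number of conjugates.
-/

set_option autoImplicit false
set_option linter.unusedSectionVars false

namespace Pool.Agent.H627.LU

open NumberField Module MvPolynomial
open Pool.Agent.W238.Leh
open Pool.Agent.H627.LP hiding det_ineq det_ineq' local_gain
open Pool.Agent.H627.LR (GR GA transport_le transport_lt res res_eq res_pow exists_set v_neg)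
open Pool.Agent.H420R3 (mi nv TP ew TP_nonempty mem_TP exists_frac v_lt_one_iff v_fixed_le
  card_inertia nv_pos v_smul sum_ew ew_pos)
open scoped Pointwise

noncomputable section

section Res

variable {M : Type} [Field M] [NumberField M] (v : FinitePlace M) {N : ℕ}

/-- the coordinate of maximal absolute value -/
def ix (x : Fin (N + 1) → M) : Fin (N + 1) := (exists_nmf (v := v) x).choose

lemma ix_spec (x : Fin (N + 1) → M) : v (x (ix v x)) = nmf v x :=
  (exists_nmf (v := v) x).choose_spec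

/-- normalisation -/
def nr (x : Fin (N + 1) → M) : Fin (N + 1) → M := (x (ix v x))⁻¹ • x

lemma x_ix_ne {x : Fin (N + 1) → M} (hx : x ≠ 0) : x (ix v x) ≠ 0 := by
  intro h0
  have h1 := ix_spec v x
  rw [h0, map_zero] at h1
  have := nmf_pos v hx
  linarith

lemma nmf_nr {x : Fin (N + 1) → M} (hx : x ≠ 0) : nmf v (nr v x) = 1 := by
  have hpos := nmf_pos v hx
  unfold nr
  rw [nmf_smul, map_inv₀, ix_spec, inv_mul_cancel₀ hpos.ne']

/-- the residue class of a point -/
def cls (x : Fin (N + 1) → M) : Fin (N + 1) → 𝓞 M ⧸ mi v := fun j => res v (nr v x j)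

lemma lt_of_cls {x y : Fin (N + 1) → M} (hx : x ≠ 0) (hy : y ≠ 0) (h : cls v x = cls v y)
    (j : Fin (N + 1)) : v (nr v x j - nr v y j) < 1 :=
  res_eq v ((le_nmf v _ j).trans (nmf_nr v hx).le) ((le_nmf v _ j).trans (nmf_nr v hy).le)
    (congrFun h j)

end Res

section Center

variable {K M : Type} [Field K] [NumberField K] [Field M] [NumberField M] [Algebra K M]
  [IsGalois K M] {N : ℕ} {P : Ideal (𝓞 K)} [hP : P.IsMaximal]

/-- a vector fixed by inertia which is close to a vector fixed by a large subgroup -/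
lemma exists_center (hP0 : P ≠ ⊥) {v : FinitePlace M} (hv : v ∈ TP M P)
    {H : Subgroup Gal(M/K)} (hH : H ≤ (mi v).inertia Gal(M/K)) {w : Fin (N + 1) → M}
    (hw : nmf v w = 1) (hwH : ∀ h ∈ H, ∀ i, h (w i) = w i) {e : ℕ}
    (he : Nat.card ((mi v).inertia Gal(M/K)) ≤ e * Nat.card H) :
    ∃ c : Fin (N + 1) → M, (∀ i, ∀ g ∈ (mi v).inertia Gal(M/K), g (c i) = c i) ∧
      (∀ i, v (w i - c i) < 1) ∧
      ∀ i, v (w i - c i) ≤ Real.exp (-(ew K v * (1 / (e : ℝ)))) := by
  set I := (mi v).inertia Gal(M/K) with hI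
  have he1 : 1 ≤ e := by
    rcases Nat.eq_zero_or_pos e with h0 | h0
    · rw [h0, zero_mul] at he
      have : 0 < Nat.card I := Nat.card_pos
      omega
    · exact h0
  have he' : (1 : ℝ) ≤ e := by exact_mod_cast he1
  have hlog := H420R3.log_nv_pos v
  have hbH : (nv v ^ Nat.card H)⁻¹ ≤ Real.exp (-(ew K v * (1 / (e : ℝ)))) := by
    have h1 : (nv v ^ Nat.card H)⁻¹ = Real.exp (-(Nat.card H * Real.log (nv v))) := by
      rw [Real.exp_neg, Real.exp_nat_mul, Real.exp_log (nv_pos v)]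
    rw [h1, Real.exp_le_exp, neg_le_neg_iff, ← card_inertia hP0 hv, mul_one_div,
      div_le_iff₀ (by linarith)]
    have h2 : (Nat.card I : ℝ) ≤ e * Nat.card H := by exact_mod_cast he
    nlinarith
  have hwle : ∀ i, v (w i) ≤ 1 := fun i => (le_nmf v w i).trans hw.le
  choose c hc1 hc2 hc3 using fun i => center (K := K) v (hwle i)
  refine ⟨c, fun i => hc1 i, hc3, fun i => ?_⟩
  refine le_trans (v_fixed_le v H hH ?_ (hc3 i)) hbH
  intro h hh
  rw [map_sub, hwH h hh, hc1 i h (hH hh)]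

/-- closeness of two points in the same class -/
lemma near_of_cls (hP0 : P ≠ ⊥) {v : FinitePlace M} (hv : v ∈ TP M P) {x y : Fin (N + 1) → M}
    (hx : x ≠ 0) (hy : y ≠ 0) (hcl : cls v x = cls v y) {e : ℕ} (he1 : 1 ≤ e)
    (hX : ∃ c : Fin (N + 1) → M, (∀ i, ∀ g ∈ (mi v).inertia Gal(M/K), g (c i) = c i) ∧
      (∀ i, v (nr v x i - c i) < 1) ∧
      ∀ i, v (nr v x i - c i) ≤ Real.exp (-(ew K v * (1 / (e : ℝ)))))
    (hY : ∃ c : Fin (N + 1) → M, (∀ i, ∀ g ∈ (mi v).inertia Gal(M/K), g (c i) = c i) ∧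
      (∀ i, v (nr v y i - c i) < 1) ∧
      ∀ i, v (nr v y i - c i) ≤ Real.exp (-(ew K v * (1 / (e : ℝ))))) :
    Near v (Real.exp (-(ew K v * (1 / (e : ℝ))))) x y := by
  obtain ⟨c, hc1, hc2, hc3⟩ := hX
  obtain ⟨c', hc'1, hc'2, hc'3⟩ := hY
  have he' : (1 : ℝ) ≤ e := by exact_mod_cast he1
  have hew := ew_pos (K := K) v
  have hcc : ∀ i, v (c i - c' i) ≤ Real.exp (-(ew K v * (1 / (e : ℝ)))) := by
    intro i
    have h1 : v (c i - c' i) < 1 := by
      have h2 : c i - c' i = (nr v y i - c' i) +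
          ((nr v x i - nr v y i) - (nr v x i - c i)) := by ring
      rw [h2]
      refine lt_of_le_of_lt (FinitePlace.add_le v _ _) (max_lt (hc'2 i) ?_)
      exact lt_of_le_of_lt (v_sub_le v _ _) (max_lt (lt_of_cls v hx hy hcl i) (hc2 i))
    refine (v_fixed_le v ((mi v).inertia Gal(M/K)) le_rfl ?_ h1).trans ?_
    · intro g hg
      rw [map_sub, hc1 i g hg, hc'1 i g hg]
    · have h2 : (nv v ^ Nat.card ((mi v).inertia Gal(M/K)))⁻¹ = Real.exp (-ew K v) := by
        rw [← card_inertia hP0 hv, Real.exp_neg, Real.exp_nat_mul, Real.exp_log (nv_pos v)]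
      rw [h2, Real.exp_le_exp, neg_le_neg_iff]
      calc ew K v * (1 / (e : ℝ)) ≤ ew K v * 1 := by
            apply mul_le_mul_of_nonneg_left _ hew.le
            rw [div_le_one (by linarith)]
            exact he'
        _ = ew K v := mul_one _
  have hCl : Cl v (Real.exp (-(ew K v * (1 / (e : ℝ))))) ((x (ix v x))⁻¹ • x)
      ((y (ix v y))⁻¹ • y) := by
    refine ⟨nmf_nr v hx, nmf_nr v hy, fun i => ?_⟩
    have h2 : ((x (ix v x))⁻¹ • x) i - ((y (ix v y))⁻¹ • y) i =
        (nr v x i - c i) + ((c i - c' i) - (nr v y i - c' i)) := by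
      unfold nr
      ring
    rw [h2]
    refine (FinitePlace.add_le v _ _).trans (max_le (hc3 i) ?_)
    exact (v_sub_le v _ _).trans (max_le (hcc i) (hc'3 i))
  exact hCl.near

end Center

section Tower

variable {K L M : Type} [Field K] [NumberField K] [Field L] [NumberField L] [Field M]
  [NumberField M] [Algebra K L] [Algebra K M] [Algebra L M] [IsScalarTower K L M]
  [IsGalois K M] {P : Ideal (𝓞 K)} [hP : P.IsMaximal] {N : ℕ}

/-- the subgroup of the inertia group fixing a conjugate of `L` -/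
theorem exists_H' (hP0 : P ≠ ⊥) {v w : FinitePlace M} (hv : v ∈ TP M P) (hw : w ∈ TP M P)
    {σ : Gal(M/K)} (hwσ : mi v = σ • mi w) {e : ℕ}
    (he : ((mi w).under (𝓞 L)).ramificationIdx (𝓞 K) ≤ e) :
    ∃ H : Subgroup Gal(M/K), H ≤ (mi v).inertia Gal(M/K) ∧
      (∀ h ∈ H, ∀ y : L, h (σ (algebraMap L M y)) = σ (algebraMap L M y)) ∧
      Nat.card ((mi v).inertia Gal(M/K)) ≤ e * Nat.card H := by
  classical
  have hGL : IsGalois L M := IsGalois.tower_top_of_isGalois K L M
  have hlov := H420R3.liesOver_of_mem hP0 hv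
  have hlow := H420R3.liesOver_of_mem hP0 hw
  set I := (mi v).inertia Gal(M/K) with hI
  set H : Subgroup Gal(M/K) := I ⊓
    { carrier := {h | ∀ y : L, h (σ (algebraMap L M y)) = σ (algebraMap L M y)}
      mul_mem' := by
        intro a b ha hb y
        rw [AlgEquiv.mul_apply, hb y, ha y]
      one_mem' := fun y => rfl
      inv_mem' := by
        intro a ha y
        have h1 : a⁻¹ (a (σ (algebraMap L M y))) = a⁻¹ (σ (algebraMap L M y)) := by rw [ha y]
        rw [← AlgEquiv.mul_apply, inv_mul_cancel] at h1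
        exact h1.symm } with hHdef
  refine ⟨H, inf_le_left, fun h hh y => hh.2 y, ?_⟩
  -- the prime of `L`
  set 𝔓 : Ideal (𝓞 L) := (mi w).under (𝓞 L) with h𝔓
  have h𝔓m : 𝔓.IsMaximal := Ideal.isMaximal_comap_of_isIntegral_of_isMaximal (mi w)
  have hlo1 : (mi w).LiesOver 𝔓 := ⟨rfl⟩
  have h𝔓P : 𝔓.under (𝓞 K) = P := by
    rw [h𝔓, Ideal.under_under]
    exact hlow.over.symm
  have h1 : Nat.card I = (mi w).ramificationIdx (𝓞 K) := by
    rw [hI, Ideal.card_inertia_eq_ramificationIdxIn (G := Gal(M/K)) P (mi v)]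
    exact Ideal.ramificationIdxIn_eq_ramificationIdx P (mi w) Gal(M/K)
  have h2 : (mi w).ramificationIdx (𝓞 K) =
      𝔓.ramificationIdx (𝓞 K) * (mi w).ramificationIdx (𝓞 L) :=
    Ideal.ramificationIdx_tower (R := 𝓞 K) 𝔓 (mi w)
  have h3 : Nat.card ((mi w).inertia Gal(M/L)) = (mi w).ramificationIdx (𝓞 L) := by
    rw [Ideal.card_inertia_eq_ramificationIdxIn (G := Gal(M/L)) 𝔓 (mi w)]
    exact Ideal.ramificationIdxIn_eq_ramificationIdx 𝔓 (mi w) Gal(M/L)
  have key : ∀ g : (mi w).inertia Gal(M/L),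
      σ * (g : Gal(M/L)).restrictScalars K * σ⁻¹ ∈ H := by
    intro g
    refine ⟨?_, ?_⟩
    · change σ * (g : Gal(M/L)).restrictScalars K * σ⁻¹ ∈ (mi v).inertia Gal(M/K)
      rw [AddSubgroup.mem_inertia]
      intro x
      have h4 := AddSubgroup.mem_inertia.mp g.2 (σ⁻¹ • x)
      have h5 : σ • ((g : Gal(M/L)) • (σ⁻¹ • x) - σ⁻¹ • x) ∈ σ • mi w :=
        Ideal.smul_mem_pointwise_smul_iff.mpr h4
      rw [← hwσ, smul_sub, smul_inv_smul] at h5
      have h6 : (σ * (g : Gal(M/L)).restrictScalars K * σ⁻¹) • x =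
          σ • ((g : Gal(M/L)) • (σ⁻¹ • x)) := by
        rw [mul_smul, mul_smul]
        rfl
      change (σ * (g : Gal(M/L)).restrictScalars K * σ⁻¹) • x - x ∈ mi v
      rw [h6]
      exact h5
    · intro y
      rw [AlgEquiv.mul_apply, AlgEquiv.mul_apply]
      have h4 : σ⁻¹ (σ (algebraMap L M y)) = algebraMap L M y := by
        rw [← AlgEquiv.mul_apply, inv_mul_cancel]
        rfl
      rw [h4]
      have h5 : (g : Gal(M/L)).restrictScalars K (algebraMap L M y) = algebraMap L M y :=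
        (g : Gal(M/L)).commutes y
      rw [h5]
  have h4 : Nat.card ((mi w).inertia Gal(M/L)) ≤ Nat.card H := by
    refine Nat.card_le_card_of_injective (fun g => (⟨_, key g⟩ : H)) ?_
    intro a b hab
    have h5 := congrArg Subtype.val hab
    have h6 : (a : Gal(M/L)).restrictScalars K = (b : Gal(M/L)).restrictScalars K :=
      mul_left_cancel (mul_right_cancel h5)
    apply Subtype.ext
    ext x
    exact AlgEquiv.congr_fun h6 x
  rw [h1, h2, ← h3]
  exact Nat.mul_le_mul he h4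

/-- residue classes of points with coordinates in the conjugate of `L` -/
lemma cls_mem {v : FinitePlace M} {σ : Gal(M/K)} {Q : ℕ} (hG : GA L Q v σ)
    {S : Finset (𝓞 M ⧸ mi v)} (hS : ∀ r, r ^ Q = r → r ∈ S) {x : Fin (N + 1) → L}
    {y : Fin (N + 1) → M} (hy0 : y ≠ 0) (hy : y = fun i => σ (algebraMap L M (x i))) :
    cls v y ∈ Fintype.piFinset fun _ => S := by
  rw [Fintype.mem_piFinset]
  intro j
  apply hS
  have h2 : v (nr v y j) ≤ 1 := (le_nmf v _ j).trans (nmf_nr v hy0).le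
  have h3 : nr v y j = σ (algebraMap L M (x j / x (ix v y))) := by
    unfold nr
    simp only [Pi.smul_apply, smul_eq_mul]
    rw [hy, map_div₀, map_div₀, mul_comm, div_eq_mul_inv]
  apply res_pow v h2
  rw [h3] at h2 ⊢
  exact hG _ h2

/-- the residue field of the conjugate of `L` -/
lemma ga_of' (hP0 : P ≠ ⊥) {v w : FinitePlace M} (hw : w ∈ TP M P) {σ : Gal(M/K)}
    (h : mi v = σ • mi w) :
    GA L (P.absNorm ^ ((mi w).under (𝓞 L)).inertiaDeg (𝓞 K)) v σ := by
  intro y hy
  have hGL : IsGalois L M := IsGalois.tower_top_of_isGalois K L M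
  have h' : mi w = σ⁻¹ • mi v := by rw [h, inv_smul_smul]
  have hlow := H420R3.liesOver_of_mem hP0 hw
  set 𝔓 : Ideal (𝓞 L) := (mi w).under (𝓞 L) with h𝔓
  have h𝔓m : 𝔓.IsMaximal := Ideal.isMaximal_comap_of_isIntegral_of_isMaximal (mi w)
  have hlo1 : (mi w).LiesOver 𝔓 := ⟨rfl⟩
  have h𝔓P : 𝔓.under (𝓞 K) = P := by
    rw [h𝔓, Ideal.under_under]
    exact hlow.over.symm
  have hlo2 : 𝔓.LiesOver P := ⟨h𝔓P.symm⟩
  have h𝔓0 : 𝔓 ≠ ⊥ := Ideal.ne_bot_of_liesOver_of_ne_bot hP0 𝔓
  have hwL : w ∈ TP M 𝔓 := (mem_TP h𝔓0).mpr ⟨inferInstance, hlo1⟩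
  have hwy : w (algebraMap L M y) ≤ 1 := by
    have h1 := transport_le h' hy
    rwa [← AlgEquiv.mul_apply, inv_mul_cancel] at h1
  -- the Frobenius over `L`
  have hQ : 𝔓.absNorm ^ 1 = P.absNorm ^ 𝔓.inertiaDeg (𝓞 K) := by
    have h3 := Ideal.absNorm_eq_pow_inertiaDeg'_of_liesOver 𝔓 P inferInstance hP0
    rw [Ideal.inertiaDeg'_eq_inertiaDeg] at h3
    rw [h3, pow_one]
  obtain ⟨τ, hτ1, hτ2⟩ := H420R3.exists_frob (K := L) h𝔓0 hwL 1
  have hfr : FrobAt w τ (𝔓.absNorm ^ 1) := ⟨hτ1, hτ2⟩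
  have h1 := hfr.lt hwy
  rw [hQ, τ.commutes y] at h1
  have h2 : w ((algebraMap L M y) ^ (P.absNorm ^ 𝔓.inertiaDeg (𝓞 K)) - algebraMap L M y) < 1 := by
    rw [← v_neg, neg_sub]
    exact h1
  have h3 := transport_lt h h2
  rwa [map_sub, map_pow] at h3

/-- the conjugates at good places lie in few classes of close points -/
theorem classes_of (hP0 : P ≠ ⊥) {v : FinitePlace M} (hv : v ∈ TP M P) {x : Fin (N + 1) → L}
    (hx : x ≠ 0) {e m : ℕ} (he1 : 1 ≤ e) {ι : Type} [Fintype ι] [DecidableEq ι]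
    (τ : ι → Gal(M/K)) (Bad : Finset ι)
    (hbad : ∀ i, i ∉ Bad → ∃ w ∈ TP M P, mi v = τ i • mi w ∧
      ((mi w).under (𝓞 L)).inertiaDeg (𝓞 K) ≤ m ∧
      ((mi w).under (𝓞 L)).ramificationIdx (𝓞 K) ≤ e) :
    Classes v (fun i => fun j => τ i (algebraMap L M (x j))) Bad
      (P.absNorm ^ (m * (N + 2))) (ew K v * (1 / (e : ℝ))) := by
  classical
  obtain ⟨Q, hQdef⟩ : ∃ Q, Q = P.absNorm := ⟨_, rfl⟩
  rw [← hQdef]
  have hPn : 1 < Q := by
    have h1 := log_absNorm_pos (K := K) hP0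
    rw [hQdef]
    by_contra h
    push Not at h
    interval_cases hh : P.absNorm <;> simp at h1
  have hS : ∀ j, ∃ S : Finset (𝓞 M ⧸ mi v), S.card ≤ Q ^ j ∧
      (1 ≤ j → ∀ r, r ^ (Q ^ j) = r → r ∈ S) := by
    intro j
    rcases Nat.eq_zero_or_pos j with h0 | h0
    · exact ⟨∅, by simp, fun h => absurd h (by omega)⟩
    · obtain ⟨S, h1, h2⟩ := exists_set v (Q ^ j) (Nat.one_lt_pow (by omega) hPn)
      exact ⟨S, h1, fun _ => h2⟩
  choose S hS1 hS2 using hS
  have hp0 : ∀ i, (fun j => τ i (algebraMap L M (x j))) ≠ 0 := by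
    intro i h0
    apply hx
    funext j
    have h1 := congrFun h0 j
    simpa using h1
  refine ⟨Fin (N + 1) → 𝓞 M ⧸ mi v, fun i => cls v (fun j => τ i (algebraMap L M (x j))),
    (Finset.Icc 1 m).biUnion fun j => Fintype.piFinset fun _ => S j, ?_, ?_, ?_⟩
  · refine Finset.card_biUnion_le.trans ?_
    calc ∑ j ∈ Finset.Icc 1 m, (Fintype.piFinset fun _ : Fin (N + 1) => S j).card ≤
        ∑ _j ∈ Finset.Icc 1 m, Q ^ (m * (N + 1)) := by
          refine Finset.sum_le_sum fun j hj => ?_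
          rw [Fintype.card_piFinset_const]
          refine (Nat.pow_le_pow_left (hS1 j) _).trans ?_
          rw [← pow_mul]
          exact Nat.pow_le_pow_right (by omega)
            (Nat.mul_le_mul_right _ (Finset.mem_Icc.mp hj).2)
      _ = m * Q ^ (m * (N + 1)) := by
          rw [Finset.sum_const, Nat.card_Icc, smul_eq_mul, Nat.add_sub_cancel]
      _ ≤ Q ^ m * Q ^ (m * (N + 1)) := Nat.mul_le_mul_right _ (Nat.lt_pow_self hPn).le
      _ = Q ^ (m * (N + 2)) := by
          rw [← pow_add]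
          congr 1
          ring
  · intro i hi
    obtain ⟨w, hw, h1, h2, _⟩ := hbad i hi
    have hf1 : 1 ≤ ((mi w).under (𝓞 L)).inertiaDeg (𝓞 K) := by
      have h𝔓m : ((mi w).under (𝓞 L)).IsMaximal :=
        Ideal.isMaximal_comap_of_isIntegral_of_isMaximal (mi w)
      exact ((mi w).under (𝓞 L)).inertiaDeg_pos (𝓞 K)
    rw [Finset.mem_biUnion]
    refine ⟨((mi w).under (𝓞 L)).inertiaDeg (𝓞 K), Finset.mem_Icc.mpr ⟨hf1, h2⟩, ?_⟩
    have hga := ga_of' (L := L) hP0 hw h1
    rw [← hQdef] at hga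
    exact cls_mem hga (hS2 _ hf1) (hp0 i) rfl
  · intro i i' hi hi' hcl
    refine near_of_cls (K := K) hP0 hv (hp0 i) (hp0 i') hcl he1 ?_ ?_
    · obtain ⟨w, hw, h1, _, h3⟩ := hbad i hi
      obtain ⟨H, hH, hfix, hcard⟩ := exists_H' (L := L) hP0 hv hw h1 h3
      refine exists_center hP0 hv hH (nmf_nr v (hp0 i)) ?_ hcard
      intro h hh j
      unfold nr
      simp only [Pi.smul_apply, smul_eq_mul, map_mul, map_inv₀, hfix h hh]
    · obtain ⟨w, hw, h1, _, h3⟩ := hbad i' hi'
      obtain ⟨H, hH, hfix, hcard⟩ := exists_H' (L := L) hP0 hv hw h1 h3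
      refine exists_center hP0 hv hH (nmf_nr v (hp0 i')) ?_ hcard
      intro h hh j
      unfold nr
      simp only [Pi.smul_apply, smul_eq_mul, map_mul, map_inv₀, hfix h hh]

variable {F : Fin (N + 1) → MvPolynomial (Fin (N + 1)) K}

/-- the number of conjugates of a point is the degree of its field of definition -/
theorem le_card_QQ (x : Fin (N + 1) → L) :
    finrank K (IntermediateField.adjoin K
      (Set.range fun ij : Fin (N + 1) × Fin (N + 1) => x ij.1 / x ij.2)) ≤
      Fintype.card (QQ F (fun i => algebraMap L M (x i)) 0) := by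
  classical
  set z : Fin (N + 1) → M := fun i => algebraMap L M (x i) with hz
  set S : Set L := Set.range fun ij : Fin (N + 1) × Fin (N + 1) => x ij.1 / x ij.2 with hS
  set φ : L →ₐ[K] M := IsScalarTower.toAlgHom K L M with hφ
  set E' : IntermediateField K M := (IntermediateField.adjoin K S).map φ with hE'
  have hE'2 : E' = IntermediateField.adjoin K (φ '' S) := IntermediateField.adjoin_map K S φ
  have hfr : finrank K E' = finrank K (IntermediateField.adjoin K S) :=
    (IntermediateField.equivMap (IntermediateField.adjoin K S) φ).toLinearEquiv.finrank_eq.symm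
  have hcardE : Nat.card E'.fixingSubgroup = finrank E' M :=
    IsGalois.card_fixingSubgroup_eq_finrank E'
  have hcardG : Nat.card Gal(M/K) = finrank K M := IsGalois.card_aut_eq_finrank K M
  set f : Gal(M/K) → QQ F z 0 := fun g => Quotient.mk (ptS F z 0) g with hf
  have h1 : (Finset.univ : Finset Gal(M/K)).card ≤
      Nat.card E'.fixingSubgroup * (Finset.univ.image f).card := by
    refine Finset.card_le_mul_card_image _ _ fun b hb => ?_
    obtain ⟨h₀, _, rfl⟩ := Finset.mem_image.mp hb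
    rw [← Fintype.card_coe, ← Nat.card_eq_fintype_card]
    have hmem : ∀ g : (Finset.univ.filter fun g => f g = f h₀),
        (h₀)⁻¹ * (g : Gal(M/K)) ∈ E'.fixingSubgroup := by
      intro g
      have h2 : f g = f h₀ := (Finset.mem_filter.mp g.2).2
      obtain ⟨c, hc, h3⟩ := Quotient.exact h2
      have h4 : ∀ i, (h₀⁻¹ * (g : Gal(M/K))) (z i) = (h₀⁻¹ c) * z i := by
        intro i
        have h5 : (g : Gal(M/K)) (z i) = c * h₀ (z i) := congrFun h3 i
        rw [AlgEquiv.mul_apply, h5, map_mul, ← AlgEquiv.mul_apply, inv_mul_cancel]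
        rfl
      have hc' : h₀⁻¹ c ≠ 0 := (map_ne_zero h₀⁻¹).mpr hc
      rw [IntermediateField.mem_fixingSubgroup_iff, hE'2]
      intro y hy
      induction hy using IntermediateField.adjoin_induction with
      | mem y hy =>
        obtain ⟨s, ⟨⟨i, j⟩, rfl⟩, rfl⟩ := hy
        change (h₀⁻¹ * (g : Gal(M/K))) (algebraMap L M (x i / x j)) =
          algebraMap L M (x i / x j)
        have h6 : algebraMap L M (x i / x j) = z i / z j := map_div₀ _ _ _
        rw [h6, map_div₀, h4, h4, mul_div_mul_left _ _ hc']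
      | algebraMap y => exact AlgEquiv.commutes _ y
      | add y y' _ _ h h' => rw [map_add, h, h']
      | inv y _ h => rw [map_inv₀, h]
      | mul y y' _ _ h h' => rw [map_mul, h, h']
    refine Nat.card_le_card_of_injective
      (fun g : (Finset.univ.filter fun g => f g = f h₀) =>
        (⟨h₀⁻¹ * (g : Gal(M/K)), hmem g⟩ : E'.fixingSubgroup)) ?_
    intro a b hab
    apply Subtype.ext
    have := congrArg Subtype.val hab
    exact mul_left_cancel this
  rw [Finset.card_univ, ← Nat.card_eq_fintype_card, hcardG, hcardE] at h1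
  have h2 : (Finset.univ.image f).card ≤ Fintype.card (QQ F z 0) := Finset.card_le_univ _
  have h3 : finrank K E' * finrank E' M = finrank K M := finrank_mul_finrank K E' M
  have h4 : 0 < finrank E' M := finrank_pos
  rw [← hfr]
  refine Nat.le_of_mul_le_mul_right (c := finrank E' M) ?_ h4
  calc finrank K E' * finrank E' M = finrank K M := h3
    _ ≤ finrank E' M * (Finset.univ.image f).card := h1
    _ ≤ finrank E' M * Fintype.card (QQ F z 0) := Nat.mul_le_mul_left _ h2
    _ = _ := mul_comm _ _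

end Tower

end

end Pool.Agent.H627.LU
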