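import Mathlib

/-!
Choice of the parameters.
-/

set_option autoImplicit false
set_option linter.unusedSectionVars false

namespace Pool.Agent.H627.LU

noncomputable section

/-- a scale at which the Hilbert function grows -/
lemma exists_scale {h : ℕ → ℕ} {D A κ G u N : ℕ} (hG : 2 ≤ G) (hu : 1 ≤ u)
    (hκ : κ = G ^ u) (hA : 1 ≤ A) (hD : 1 ≤ D) (hlb : ∀ n, min D (n + 1) ≤ h n)
    (hub : ∀ n, h n ≤ (n + 1) ^ N) (hbig : κ * (A + 1) ^ (N * u) < D ^ (u - 1)) :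
    ∃ j, G * h (A * κ ^ j) ≤ h (A * κ ^ (j + 1)) := by
  by_contra hcon
  push Not at hcon
  have hκ2 : 1 < κ := by
    rw [hκ]
    exact Nat.one_lt_pow (by omega) (by omega)
  have hind : ∀ k, h (A * κ ^ k) ≤ G ^ k * h A := by
    intro k
    induction k with
    | zero => simp
    | succ k ih =>
      calc h (A * κ ^ (k + 1)) ≤ G * h (A * κ ^ k) := (hcon k).le
        _ ≤ G * (G ^ k * h A) := Nat.mul_le_mul_left _ ih
        _ = _ := by ring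
  obtain ⟨k, hk⟩ : ∃ k, k = Nat.log κ D + 1 := ⟨_, rfl⟩
  have h1 : D < κ ^ k := by
    rw [hk]
    exact Nat.lt_pow_succ_log_self hκ2 D
  have h2 : κ ^ k ≤ κ * D := by
    rw [hk, pow_succ, mul_comm]
    exact Nat.mul_le_mul_left _ (Nat.pow_log_le_self κ (by omega))
  have h3 : D ≤ h (A * κ ^ k) := by
    have h4 := hlb (A * κ ^ k)
    have h5 : κ ^ k ≤ A * κ ^ k := Nat.le_mul_of_pos_left _ (by omega)
    rw [min_eq_left (by omega)] at h4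
    exact h4
  have h4 : D ≤ G ^ k * (A + 1) ^ N :=
    h3.trans ((hind k).trans (Nat.mul_le_mul_left _ (hub A)))
  have h5 : D ^ u ≤ κ * D * (A + 1) ^ (N * u) := by
    calc D ^ u ≤ (G ^ k * (A + 1) ^ N) ^ u := Nat.pow_le_pow_left h4 u
      _ = κ ^ k * (A + 1) ^ (N * u) := by
        rw [mul_pow, ← pow_mul, ← pow_mul, hκ, ← pow_mul, mul_comm k u]
      _ ≤ _ := Nat.mul_le_mul_right _ h2
  have h6 : D ^ u = D ^ (u - 1) * D := by
    rw [← pow_succ]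
    congr 1
    omega
  rw [h6] at h5
  have h7 : D ^ (u - 1) * D ≤ (κ * (A + 1) ^ (N * u)) * D := by
    refine h5.trans (le_of_eq ?_)
    ring
  have h8 := Nat.le_of_mul_le_mul_right h7 (by omega)
  omega

lemma log_bound {E θ : ℝ} (hE : 0 ≤ E) (hθ : 0 < θ) (N : ℕ) :
    ∃ C : ℝ, 0 < C ∧ ∀ W s : ℕ, 1 ≤ W → 1 ≤ s →
      E * (1 + Nat.log 2 (W * s) : ℕ) + N * Real.log (W * s + 1 : ℕ) ≤
        C * W * (s : ℝ) ^ θ := by
  have hl2 : 0 < Real.log 2 := Real.log_pos (by norm_num)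
  obtain ⟨R, hR⟩ : ∃ R : ℝ, R = 2 + 1 / θ := ⟨_, rfl⟩
  have hR0 : 0 ≤ R := by
    have h2 : 0 < 1 / θ := by positivity
    linarith
  refine ⟨E * (1 + R / Real.log 2) + N * R + 1, by positivity, ?_⟩
  intro W s hW hs
  have hW' : (1 : ℝ) ≤ W := by exact_mod_cast hW
  have hs' : (1 : ℝ) ≤ s := by exact_mod_cast hs
  have hsθ : (1 : ℝ) ≤ (s : ℝ) ^ θ := Real.one_le_rpow hs' hθ.le
  obtain ⟨y, hy⟩ : ∃ y : ℝ, y = (s : ℝ) ^ θ := ⟨_, rfl⟩
  rw [← hy] at hsθ ⊢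
  have h1 : Real.log (W * s + 1 : ℕ) ≤ R * (W * y) := by
    have h2 : ((W * s + 1 : ℕ) : ℝ) ≤ 2 * W * s := by
      push_cast
      nlinarith
    have h3 := Real.log_le_log (by positivity) h2
    rw [Real.log_mul (by positivity) (by positivity)] at h3
    have h4 := Real.log_le_rpow_div (by linarith : (0 : ℝ) ≤ s) hθ
    rw [← hy] at h4
    have h5 : Real.log (2 * W) ≤ 2 * (W * y) := by
      have h6 := Real.log_le_sub_one_of_pos (show (0 : ℝ) < 2 * W by linarith)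
      nlinarith
    have h6 : y / θ ≤ (1 / θ) * (W * y) := by
      rw [div_eq_mul_one_div, mul_comm]
      apply mul_le_mul_of_nonneg_left _ (by positivity)
      nlinarith
    calc Real.log (W * s + 1 : ℕ) ≤ Real.log (2 * W) + Real.log s := h3
      _ ≤ 2 * (W * y) + (1 / θ) * (W * y) := by linarith
      _ = _ := by
        rw [hR]
        ring
  have h2 : ((1 + Nat.log 2 (W * s) : ℕ) : ℝ) ≤ (1 + R / Real.log 2) * (W * y) := by
    have hWs : 1 ≤ W * s := Nat.mul_pos hW hs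
    have h3 : (2 : ℝ) ^ Nat.log 2 (W * s) ≤ ((W * s + 1 : ℕ) : ℝ) := by
      have h4 := Nat.pow_log_le_self 2 (x := W * s) (by omega)
      have h5 : 2 ^ Nat.log 2 (W * s) ≤ W * s + 1 := by omega
      exact_mod_cast h5
    have h4 := Real.log_le_log (by positivity) h3
    rw [Real.log_pow] at h4
    have h5 : (Nat.log 2 (W * s) : ℝ) ≤ R / Real.log 2 * (W * y) := by
      rw [div_mul_eq_mul_div, le_div_iff₀ hl2]
      exact h4.trans h1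
    push_cast
    rw [add_mul, one_mul]
    refine add_le_add ?_ h5
    nlinarith
  have h3 : E * (1 + Nat.log 2 (W * s) : ℕ) ≤ E * ((1 + R / Real.log 2) * (W * y)) :=
    mul_le_mul_of_nonneg_left h2 hE
  have h4 : N * Real.log (W * s + 1 : ℕ) ≤ N * (R * (W * y)) :=
    mul_le_mul_of_nonneg_left h1 (Nat.cast_nonneg _)
  have h5 : 0 ≤ (W : ℝ) * y := by positivity
  calc E * (1 + Nat.log 2 (W * s) : ℕ) + N * Real.log (W * s + 1 : ℕ) ≤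
      E * ((1 + R / Real.log 2) * (W * y)) + N * (R * (W * y)) + W * y := by linarith
    _ = _ := by ring

/-- the growth condition -/
lemma big_of {ε γ C₃ R : ℝ} {N u κ D e s₀ : ℕ} (hε : 0 < ε)
    (hu2 : 2 ≤ u) (hγ1 : 1 < γ) (hγ : γ * (N * u) = ((N : ℝ) + ε) * (u - 1))
    (hC₃ : 1 ≤ C₃) (he : 1 ≤ e) (hs₀ : (s₀ : ℝ) ≤ 2 * (C₃ * e) ^ γ)
    (hR : κ * (2 * (N : ℝ) + 1) ^ (N * u) * C₃ ^ (γ * (N * u)) + 1 ≤ R)
    (hDe : R * (e : ℝ) ^ ((N : ℝ) + ε) ≤ D) :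
    κ * (N * s₀ + 1) ^ (N * u) < D ^ (u - 1) := by
  have he' : (1 : ℝ) ≤ e := by exact_mod_cast he
  obtain ⟨X, hX⟩ : ∃ X : ℝ, X = (C₃ * e) ^ γ := ⟨_, rfl⟩
  have hCe : 1 ≤ C₃ * e := by nlinarith
  have hX1 : 1 ≤ X := by
    rw [hX]
    exact Real.one_le_rpow hCe (by linarith)
  rw [← hX] at hs₀
  have h1 : ((N * s₀ + 1 : ℕ) : ℝ) ≤ (2 * N + 1) * X := by
    push_cast
    have : (N : ℝ) * s₀ ≤ N * (2 * X) := mul_le_mul_of_nonneg_left hs₀ (Nat.cast_nonneg _)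
    linarith
  obtain ⟨Y, hY⟩ : ∃ Y : ℝ, Y = (e : ℝ) ^ ((N : ℝ) + ε) := ⟨_, rfl⟩
  have hN0 : (0 : ℝ) ≤ N := Nat.cast_nonneg _
  have hY1 : 1 ≤ Y := by
    rw [hY]
    exact Real.one_le_rpow he' (by linarith)
  have hcast : ((u - 1 : ℕ) : ℝ) = (u : ℝ) - 1 := by
    rw [Nat.cast_sub (by omega)]
    simp
  obtain ⟨Z, hZ⟩ : ∃ Z : ℝ, Z = C₃ ^ (γ * (N * u)) := ⟨_, rfl⟩
  have h2 : X ^ (N * u) = Z * Y ^ (u - 1) := by
    rw [hX, hZ, ← Real.rpow_natCast, ← Real.rpow_mul (by positivity),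
      Real.mul_rpow (by linarith) (by linarith)]
    congr 1
    · push_cast
      rfl
    · rw [hY, ← Real.rpow_natCast, ← Real.rpow_mul (by linarith), hcast]
      congr 1
      push_cast
      exact hγ
  rw [← hZ] at hR
  rw [← hY] at hDe
  have hZ0 : 0 < Z := by
    rw [hZ]
    positivity
  obtain ⟨C₄, hC₄⟩ : ∃ C₄ : ℝ, C₄ = κ * (2 * (N : ℝ) + 1) ^ (N * u) * Z := ⟨_, rfl⟩
  rw [← hC₄] at hR
  have hC₄0 : 0 ≤ C₄ := by
    rw [hC₄]
    positivity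
  have h3 : (κ : ℝ) * ((N * s₀ + 1 : ℕ) : ℝ) ^ (N * u) ≤ C₄ * Y ^ (u - 1) := by
    calc (κ : ℝ) * ((N * s₀ + 1 : ℕ) : ℝ) ^ (N * u) ≤ κ * ((2 * N + 1) * X) ^ (N * u) :=
          mul_le_mul_of_nonneg_left (pow_le_pow_left₀ (Nat.cast_nonneg _) h1 _)
            (Nat.cast_nonneg _)
      _ = κ * (2 * N + 1) ^ (N * u) * X ^ (N * u) := by
        rw [mul_pow]
        ring
      _ = C₄ * Y ^ (u - 1) := by
        rw [h2, hC₄]
        ring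
  have h4 : C₄ * Y ^ (u - 1) < (D : ℝ) ^ (u - 1) := by
    have h5 : R ≤ R ^ (u - 1) := le_self_pow₀ (by linarith) (by omega)
    have hYp : 0 < Y ^ (u - 1) := pow_pos (by linarith) _
    calc C₄ * Y ^ (u - 1) < (C₄ + 1) * Y ^ (u - 1) := by linarith
      _ ≤ R ^ (u - 1) * Y ^ (u - 1) :=
        mul_le_mul_of_nonneg_right (hR.trans h5) hYp.le
      _ = (R * Y) ^ (u - 1) := by rw [mul_pow]
      _ ≤ (D : ℝ) ^ (u - 1) := by
        apply pow_le_pow_left₀ _ hDe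
        exact mul_nonneg (by linarith) (by linarith)
  have h5 : ((κ * (N * s₀ + 1) ^ (N * u) : ℕ) : ℝ) < ((D ^ (u - 1) : ℕ) : ℝ) := by
    push_cast at h3 ⊢
    exact lt_of_le_of_lt h3 h4
  exact_mod_cast h5

/-- smallness of the error terms -/
lemma err_of {lP C₂ C₃ γ θ : ℝ} {B s e : ℕ} (hlP : 0 < lP) (hB : 1 ≤ B)
    (hγ1 : 1 < γ) (hθ : θ = 1 - 1 / γ) (hC₃ : C₃ = 4 * B * C₂ / lP + 1) (hC₃1 : 1 ≤ C₃)
    (he : 1 ≤ e) (hs : 1 ≤ s) (hX : (C₃ * e) ^ γ ≤ s) :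
    C₂ * (s : ℝ) ^ θ ≤ s * (lP / e) / (4 * B) := by
  have he' : (1 : ℝ) ≤ e := by exact_mod_cast he
  have hs' : (1 : ℝ) ≤ s := by exact_mod_cast hs
  have hB' : (1 : ℝ) ≤ B := by exact_mod_cast hB
  have h1 : (C₃ * e) ≤ (s : ℝ) ^ (1 / γ) := by
    have h3 := Real.rpow_le_rpow (by positivity) hX (show 0 ≤ 1 / γ by positivity)
    rw [← Real.rpow_mul (by positivity), mul_one_div_cancel (by linarith), Real.rpow_one] at h3
    exact h3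
  have h2 : (s : ℝ) = (s : ℝ) ^ θ * (s : ℝ) ^ (1 / γ) := by
    rw [← Real.rpow_add (by linarith), hθ, sub_add_cancel, Real.rpow_one]
  have h3 : 4 * B * C₂ * e ≤ lP * (s : ℝ) ^ (1 / γ) := by
    have h4 : 4 * B * C₂ / lP * e ≤ C₃ * e := by
      rw [hC₃]
      nlinarith
    have h5 := mul_le_mul_of_nonneg_left (h4.trans h1) hlP.le
    calc 4 * B * C₂ * e = lP * (4 * B * C₂ / lP * e) := by
          field_simp
      _ ≤ _ := h5
  have h4 : 0 ≤ (s : ℝ) ^ θ := by positivity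
  rw [le_div_iff₀ (by positivity), mul_div_assoc', le_div_iff₀ (by linarith)]
  calc C₂ * (s : ℝ) ^ θ * (4 * B) * e = (4 * B * C₂ * e) * (s : ℝ) ^ θ := by ring
    _ ≤ (lP * (s : ℝ) ^ (1 / γ)) * (s : ℝ) ^ θ := mul_le_mul_of_nonneg_right h3 h4
    _ = ((s : ℝ) ^ θ * (s : ℝ) ^ (1 / γ)) * lP := by ring
    _ = s * lP := by rw [← h2]

/-- the final step -/
lemma step_of {lP E H R : ℝ} {B t N κ s n e : ℕ} {hn hNs : ℕ} (hlP : 0 < lP) (hB : 1 ≤ B)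
    (hN : 1 ≤ N) (hκ : 1 ≤ κ) (hs : 1 ≤ s) (he : 1 ≤ e) (hnn : n = N * κ * s) (hr1 : 1 ≤ hn)
    (hub : hn ≤ (n + 1) ^ N) (hj : 2 * B * t * hNs ≤ hn)
    (hmain : s * (lP / e * (hn / B - (t : ℕ) * hNs)) ≤
      hn * (n * H + E * (1 + Nat.log 2 n : ℕ) + Real.log hn))
    (hlog : E * (1 + Nat.log 2 (N * κ * s) : ℕ) + N * Real.log (N * κ * s + 1 : ℕ) ≤
      s * (lP / e) / (4 * B)) (hR : 4 * B * N * κ / lP ≤ R) :
    1 / (R * e) ≤ H := by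
  have he' : (1 : ℝ) ≤ e := by exact_mod_cast he
  have hs' : (1 : ℝ) ≤ s := by exact_mod_cast hs
  have hB' : (1 : ℝ) ≤ B := by exact_mod_cast hB
  have hN' : (1 : ℝ) ≤ N := by exact_mod_cast hN
  have hκ' : (1 : ℝ) ≤ κ := by exact_mod_cast hκ
  have hr' : (1 : ℝ) ≤ hn := by exact_mod_cast hr1
  have hgr : (t : ℝ) * hNs ≤ hn / (2 * B) := by
    have h1 : ((2 * B * t * hNs : ℕ) : ℝ) ≤ hn := by exact_mod_cast hj
    push_cast at h1
    rw [le_div_iff₀ (by positivity)]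
    linarith
  have hlogh : Real.log hn ≤ N * Real.log (N * κ * s + 1 : ℕ) := by
    have h1 : (hn : ℝ) ≤ ((n + 1 : ℕ) : ℝ) ^ N := by exact_mod_cast hub
    have h2 := Real.log_le_log (by linarith) h1
    rw [Real.log_pow, hnn] at h2
    exact h2
  rw [hnn] at hmain
  have hlPe : 0 ≤ lP / e := by positivity
  have h6 : (hn : ℝ) * (s * (lP / e) / (2 * B)) ≤
      hn * ((N * κ * s : ℕ) * H + s * (lP / e) / (4 * B)) := by
    calc (hn : ℝ) * (s * (lP / e) / (2 * B)) =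
        s * (lP / e * (hn / B - hn / (2 * B))) := by
          field_simp
          ring
      _ ≤ s * (lP / e * (hn / B - t * hNs)) := by
          apply mul_le_mul_of_nonneg_left _ (by linarith)
          apply mul_le_mul_of_nonneg_left _ hlPe
          linarith
      _ ≤ _ := hmain
      _ ≤ hn * ((N * κ * s : ℕ) * H + s * (lP / e) / (4 * B)) := by
          apply mul_le_mul_of_nonneg_left _ (by linarith)
          linarith
  have h7 := le_of_mul_le_mul_left h6 (by linarith : (0 : ℝ) < hn)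
  have h8 : s * (lP / e) / (4 * B) ≤ (N * κ * s : ℕ) * H := by
    have h9 : s * (lP / e) / (2 * B) = s * (lP / e) / (4 * B) + s * (lP / e) / (4 * B) := by
      field_simp
      ring
    linarith
  have h9 : lP / (4 * B * N * κ * e) ≤ H := by
    push_cast at h8
    rw [div_le_iff₀ (by positivity)]
    have h10 : (s : ℝ) * lP ≤ s * (H * (4 * B * N * κ * e)) := by
      have h11 := mul_le_mul_of_nonneg_right h8 (show (0 : ℝ) ≤ 4 * B * e by positivity)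
      have h12 : s * (lP / e) / (4 * B) * (4 * B * e) = s * lP := by
        field_simp
      rw [h12] at h11
      refine h11.trans (le_of_eq ?_)
      ring
    exact le_of_mul_le_mul_left h10 (by linarith)
  refine le_trans ?_ h9
  have hRpos : 0 < R := lt_of_lt_of_le (by positivity) hR
  rw [div_le_div_iff₀ (by positivity) (by positivity), one_mul]
  have h11 : 4 * B * N * κ ≤ R * lP := by rwa [div_le_iff₀ hlP] at hR
  calc 4 * B * N * κ * (e : ℝ) ≤ R * lP * e := mul_le_mul_of_nonneg_right h11 (by linarith)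
    _ = lP * (R * e) := by ring

/-- the bound for given parameters -/
lemma core {lP E ε γ θ C₂ C₃ R : ℝ} {N u B t κ : ℕ} (hlP : 0 < lP)
    (hε : 0 < ε) (hN : 1 ≤ N) (hB : 1 ≤ B) (ht : 1 ≤ t) (hu2 : 2 ≤ u) (hγ1 : 1 < γ)
    (hγ : γ * (N * u) = ((N : ℝ) + ε) * (u - 1)) (hθ : θ = 1 - 1 / γ)
    (hκ : κ = (2 * B * t) ^ u)
    (hlog : ∀ s : ℕ, 1 ≤ s → E * (1 + Nat.log 2 (N * κ * s) : ℕ) +
      N * Real.log (N * κ * s + 1 : ℕ) ≤ C₂ * (s : ℝ) ^ θ)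
    (hC₃ : C₃ = 4 * B * C₂ / lP + 1) (hC₃1 : 1 ≤ C₃)
    (hR1 : 4 * B * N * κ / lP ≤ R)
    (hR2 : κ * (2 * (N : ℝ) + 1) ^ (N * u) * C₃ ^ (γ * (N * u)) + 1 ≤ R)
    {D e : ℕ} (hD : 1 ≤ D) (he : 1 ≤ e) {H : ℝ} {h : ℕ → ℕ}
    (hlb : ∀ n, min D (n + 1) ≤ h n) (hub : ∀ n, h n ≤ (n + 1) ^ N)
    (hineq : ∀ n s : ℕ, s * (lP / e * (h n / B - (t : ℕ) * h (N * s))) ≤
        h n * (n * H + E * (1 + Nat.log 2 n : ℕ) + Real.log (h n)))
    (hDe : R * (e : ℝ) ^ ((N : ℝ) + ε) ≤ D) : 1 / (R * e) ≤ H := by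
  have he' : (1 : ℝ) ≤ e := by exact_mod_cast he
  have hCe : 1 ≤ C₃ * e := by nlinarith
  have hX1 : 1 ≤ (C₃ * e) ^ γ := Real.one_le_rpow hCe (by linarith)
  obtain ⟨s₀, hs₀⟩ : ∃ s₀ : ℕ, s₀ = ⌈(C₃ * e) ^ γ⌉₊ := ⟨_, rfl⟩
  have hs₀X : (C₃ * e) ^ γ ≤ s₀ := by
    rw [hs₀]
    exact Nat.le_ceil _
  have hs₀2 : (s₀ : ℝ) ≤ 2 * (C₃ * e) ^ γ := by
    have := Nat.ceil_lt_add_one (show 0 ≤ (C₃ * e) ^ γ by linarith)
    rw [hs₀]
    linarith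
  have hs₀1 : 1 ≤ s₀ := by
    have : (1 : ℝ) ≤ s₀ := hX1.trans hs₀X
    exact_mod_cast this
  have hbig := big_of (R := R) (D := D) hε hu2 hγ1 hγ hC₃1 he hs₀2 hR2 hDe
  have hBt : 1 ≤ B * t := Nat.mul_pos hB ht
  have hG2 : 2 ≤ 2 * B * t := by
    rw [mul_assoc]
    omega
  have hκ1 : 1 ≤ κ := by
    rw [hκ]
    exact Nat.one_le_pow _ _ (by omega)
  have hA1 : 1 ≤ N * s₀ := Nat.mul_pos hN hs₀1
  obtain ⟨j, hj⟩ := exists_scale hG2 (by omega) hκ hA1 hD hlb hub hbig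
  obtain ⟨s, hs⟩ : ∃ s, s = s₀ * κ ^ j := ⟨_, rfl⟩
  have hs1 : 1 ≤ s := by
    rw [hs]
    exact Nat.mul_pos hs₀1 (Nat.pow_pos (by omega))
  have hss : s₀ ≤ s := by
    rw [hs]
    exact Nat.le_mul_of_pos_right _ (Nat.pow_pos (by omega))
  have e1 : N * s₀ * κ ^ j = N * s := by
    rw [hs]
    ring
  have e2 : N * s₀ * κ ^ (j + 1) = N * κ * s := by
    rw [hs]
    ring
  rw [e1, e2] at hj
  have hn1 : 1 ≤ N * κ * s := Nat.mul_pos (Nat.mul_pos hN hκ1) hs1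
  have hr1 : 1 ≤ h (N * κ * s) := le_trans (le_min hD (by omega)) (hlb _)
  have hX : (C₃ * e) ^ γ ≤ s := hs₀X.trans (by exact_mod_cast hss)
  exact step_of hlP hB hN hκ1 hs1 he rfl hr1 (hub _) hj (hineq _ s)
    ((hlog s hs1).trans (err_of hlP hB hγ1 hθ hC₃ hC₃1 he hs1 hX)) hR1

/-- **the parameters** -/
theorem params {lP E ε : ℝ} (hlP : 0 < lP) (hE : 0 ≤ E) (hε : 0 < ε) {N : ℕ} (hN : 1 ≤ N) :
    ∃ (C : ℝ) (w : ℕ), 0 < C ∧ ∀ (B t : ℕ), 1 ≤ B → 1 ≤ t → ∀ (D e : ℕ), 1 ≤ D → 1 ≤ e →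
      ∀ H : ℝ, ∀ h : ℕ → ℕ, (∀ n, min D (n + 1) ≤ h n) → (∀ n, h n ≤ (n + 1) ^ N) →
      (∀ n s : ℕ, s * (lP / e * (h n / B - (t : ℕ) * h (N * s))) ≤
        h n * (n * H + E * (1 + Nat.log 2 n : ℕ) + Real.log (h n))) →
      ∀ R : ℝ, C * ((B * t : ℕ) : ℝ) ^ w ≤ R →
      R * (e : ℝ) ^ ((N : ℝ) + ε) ≤ D → 1 / (R * e) ≤ H := by
  have hN' : (1 : ℝ) ≤ N := by exact_mod_cast hN
  obtain ⟨u, hu⟩ : ∃ u : ℕ, u = ⌈(N : ℝ) / ε⌉₊ + 2 := ⟨_, rfl⟩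
  have hu2 : 2 ≤ u := by omega
  have hu' : (N : ℝ) / ε + 2 ≤ u := by
    rw [hu]
    push_cast
    linarith [Nat.le_ceil ((N : ℝ) / ε)]
  have hupos : (0 : ℝ) < u := by
    have : (0 : ℝ) ≤ (N : ℝ) / ε := by positivity
    linarith
  obtain ⟨γ, hγ⟩ : ∃ γ : ℝ, γ = ((N : ℝ) + ε) * (u - 1) / (N * u) := ⟨_, rfl⟩
  have hγ1 : 1 < γ := by
    rw [hγ, one_lt_div (by positivity)]
    have h1 : (N : ℝ) + 2 * ε ≤ ε * u := by
      have h2 := mul_le_mul_of_nonneg_left hu' hε.le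
      have h3 : ε * ((N : ℝ) / ε + 2) = N + 2 * ε := by
        field_simp
      linarith
    nlinarith
  have hγ2 : γ * (N * u) = ((N : ℝ) + ε) * (u - 1) := by
    rw [hγ]
    field_simp
  obtain ⟨θ, hθ⟩ : ∃ θ : ℝ, θ = 1 - 1 / γ := ⟨_, rfl⟩
  have hθ0 : 0 < θ := by
    rw [hθ, sub_pos, div_lt_one (by linarith)]
    exact hγ1
  obtain ⟨Cl, hCl, hlog⟩ := log_bound hE hθ0 N
  obtain ⟨ζ, hζ⟩ : ∃ ζ : ℝ, ζ = γ * (N * u) := ⟨_, rfl⟩
  have hζ0 : 0 ≤ ζ := by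
    rw [hζ]
    positivity
  obtain ⟨w', hw'⟩ : ∃ w' : ℕ, w' = ⌈((u : ℝ) + 1) * ζ⌉₊ := ⟨_, rfl⟩
  have hw'2 : ((u : ℝ) + 1) * ζ ≤ w' := by
    rw [hw']
    exact Nat.le_ceil _
  obtain ⟨a₁, ha₁⟩ : ∃ a₁ : ℝ, a₁ = 4 * (Cl * (N * 2 ^ u)) / lP + 1 := ⟨_, rfl⟩
  have ha₁0 : 1 ≤ a₁ := by
    rw [ha₁]
    have : 0 ≤ 4 * (Cl * (N * 2 ^ u)) / lP := by positivity
    linarith
  obtain ⟨a₂, ha₂⟩ : ∃ a₂ : ℝ, a₂ = 2 ^ u * (2 * (N : ℝ) + 1) ^ (N * u) * a₁ ^ ζ :=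
    ⟨_, rfl⟩
  have ha₂0 : 0 < a₂ := by
    rw [ha₂]
    positivity
  obtain ⟨a₃, ha₃⟩ : ∃ a₃ : ℝ, a₃ = 4 * N * 2 ^ u / lP := ⟨_, rfl⟩
  have ha₃0 : 0 < a₃ := by
    rw [ha₃]
    positivity
  refine ⟨a₂ + a₃ + 1, u + w' + 1, by positivity, ?_⟩
  intro B t hB ht D e hD he H h hlb hub hineq R hR hDe
  have hB' : (1 : ℝ) ≤ B := by exact_mod_cast hB
  have ht' : (1 : ℝ) ≤ t := by exact_mod_cast ht
  obtain ⟨b, hb⟩ : ∃ b : ℝ, b = ((B * t : ℕ) : ℝ) := ⟨_, rfl⟩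
  have hbBt : b = B * t := by
    rw [hb]
    push_cast
    rfl
  have hBb : (B : ℝ) ≤ b := by
    rw [hbBt]
    nlinarith
  have hb1 : 1 ≤ b := hB'.trans hBb
  rw [← hb] at hR
  obtain ⟨κ, hκ⟩ : ∃ κ : ℕ, κ = (2 * B * t) ^ u := ⟨_, rfl⟩
  have hκ1 : 1 ≤ κ := by
    rw [hκ]
    exact Nat.one_le_pow _ _ (Nat.mul_pos (Nat.mul_pos (by norm_num) hB) ht)
  have hκb : (κ : ℝ) = 2 ^ u * b ^ u := by
    rw [hκ, hbBt]
    push_cast
    rw [← mul_pow]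
    ring
  have hR1 : (0 : ℝ) ≤ b ^ (u + w' + 1) := by positivity
  -- first condition
  have hc1 : 4 * B * N * κ / lP ≤ R := by
    refine le_trans ?_ hR
    calc 4 * B * N * κ / lP = a₃ * (B * b ^ u) := by
          rw [hκb, ha₃]
          field_simp
      _ ≤ a₃ * (b * b ^ u) := by
          apply mul_le_mul_of_nonneg_left _ ha₃0.le
          apply mul_le_mul_of_nonneg_right hBb
          positivity
      _ = a₃ * b ^ (u + 1) := by ring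
      _ ≤ a₃ * b ^ (u + w' + 1) := by
          apply mul_le_mul_of_nonneg_left _ ha₃0.le
          exact pow_le_pow_right₀ hb1 (by omega)
      _ ≤ (a₂ + a₃ + 1) * b ^ (u + w' + 1) := by
          apply mul_le_mul_of_nonneg_right _ hR1
          linarith
  -- second condition
  obtain ⟨C₃, hC₃⟩ : ∃ C₃ : ℝ, C₃ = 4 * B * (Cl * (N * κ : ℕ)) / lP + 1 := ⟨_, rfl⟩
  have hC₃1 : 1 ≤ C₃ := by
    rw [hC₃]
    have : 0 ≤ 4 * B * (Cl * (N * κ : ℕ)) / lP := by positivity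
    linarith
  have hC₃b : C₃ ≤ a₁ * b ^ (u + 1) := by
    have h1 : 4 * B * (Cl * (N * κ : ℕ)) / lP = 4 * (Cl * (N * 2 ^ u)) / lP * (B * b ^ u) := by
      push_cast
      rw [hκb]
      field_simp
    have h2 : (B : ℝ) * b ^ u ≤ b ^ (u + 1) := by
      rw [pow_succ']
      apply mul_le_mul_of_nonneg_right hBb
      positivity
    have h3 : (1 : ℝ) ≤ b ^ (u + 1) := one_le_pow₀ hb1
    have h4 : 0 ≤ 4 * (Cl * (N * 2 ^ u)) / lP := by positivity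
    rw [hC₃, h1, ha₁, add_mul, one_mul]
    exact add_le_add (mul_le_mul_of_nonneg_left h2 h4) h3
  have hC₃ζ : C₃ ^ ζ ≤ a₁ ^ ζ * b ^ w' := by
    have h1 := Real.rpow_le_rpow (by linarith) hC₃b hζ0
    rw [Real.mul_rpow (by linarith) (by positivity)] at h1
    refine h1.trans (mul_le_mul_of_nonneg_left ?_ (by positivity))
    rw [← Real.rpow_natCast b (u + 1), ← Real.rpow_mul (by linarith), ← Real.rpow_natCast b w']
    apply Real.rpow_le_rpow_of_exponent_le hb1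
    push_cast
    exact hw'2
  have hc2 : κ * (2 * (N : ℝ) + 1) ^ (N * u) * C₃ ^ (γ * (N * u)) + 1 ≤ R := by
    refine le_trans ?_ hR
    rw [← hζ]
    have h1 : κ * (2 * (N : ℝ) + 1) ^ (N * u) * C₃ ^ ζ ≤ a₂ * b ^ (u + w') := by
      calc κ * (2 * (N : ℝ) + 1) ^ (N * u) * C₃ ^ ζ ≤
          κ * (2 * (N : ℝ) + 1) ^ (N * u) * (a₁ ^ ζ * b ^ w') :=
            mul_le_mul_of_nonneg_left hC₃ζ (by positivity)
        _ = a₂ * b ^ (u + w') := by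
            rw [hκb, ha₂, pow_add]
            ring
    have h2 : b ^ (u + w') ≤ b ^ (u + w' + 1) := pow_le_pow_right₀ hb1 (by omega)
    have h3 : (1 : ℝ) ≤ b ^ (u + w' + 1) := one_le_pow₀ hb1
    calc κ * (2 * (N : ℝ) + 1) ^ (N * u) * C₃ ^ ζ + 1 ≤
        a₂ * b ^ (u + w' + 1) + 1 * b ^ (u + w' + 1) := by
          rw [one_mul]
          exact add_le_add (h1.trans (mul_le_mul_of_nonneg_left h2 ha₂0.le)) h3
      _ ≤ (a₂ + a₃ + 1) * b ^ (u + w' + 1) := by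
          rw [← add_mul]
          apply mul_le_mul_of_nonneg_right _ hR1
          linarith
  exact core hlP hε hN hB ht hu2 hγ1 hγ2 hθ hκ
    (fun s hs => hlog (N * κ) s (Nat.mul_pos hN hκ1) hs)
    (by rw [hC₃]) hC₃1 hc1 hc2 hD he hlb hub hineq hDe

end

end Pool.Agent.H627.LU
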