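import Mathlib
import Pool.Agent.H627.LU.Cn
import Pool.Agent.W238.Leh.Count

/-!
The inequality for the conjugates of a point.
-/

set_option autoImplicit false
set_option linter.unusedSectionVars false

namespace Pool.Agent.H627.LU

open NumberField Module MvPolynomial
open Pool.Agent.W238.Leh
open Pool.Agent.H627.LP hiding det_ineq det_ineq' local_gain
open Pool.Agent.H627.LR (GR sum_good)
open Pool.Agent.H420R3 (mi nv TP ew TP_nonempty mem_TP lP lP_pos sum_ew ew_pos)
open scoped Pointwise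

noncomputable section

variable {K L M : Type} [Field K] [NumberField K] [Field L] [NumberField L] [Field M]
  [NumberField M] [Algebra K L] [Algebra K M] [Algebra L M] [IsScalarTower K L M]
  [IsGalois K M] {P : Ideal (𝓞 K)} [hP : P.IsMaximal] {N : ℕ}
variable {F : Fin (N + 1) → MvPolynomial (Fin (N + 1)) K} {q : ℕ}

/-- the field of definition of a point -/
abbrev fld (K : Type) {L : Type} [Field K] [Field L] [Algebra K L] (x : Fin (N + 1) → L) :
    IntermediateField K L :=
  IntermediateField.adjoin K (Set.range fun ij : Fin (N + 1) × Fin (N + 1) => x ij.1 / x ij.2)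

/-- **the inequality** -/
theorem points (hP0 : P ≠ ⊥) {A : ℝ} {a c : ℕ} (hB : Bds F q A a) (hq : 2 ≤ q)
    (hF : ∀ i, (F i).IsHomogeneous q)
    (hc : ∀ m, c + q ≤ m → ∀ p : MvPolynomial (Fin (N + 1)) K, p.IsHomogeneous m →
      p ∈ Ideal.span (Set.range F))
    (hR : ∀ v ∈ TP M P, GR v F q) {x : Fin (N + 1) → L} {a₀ : Fin (N + 1)} (hxa : x a₀ = 1)
    {m e : ℕ} (he1 : 1 ≤ e) (T : Finset (Ideal (𝓞 L)))
    (hT : ∀ 𝔓 ∈ T, 𝔓.IsPrime ∧ 𝔓.under (𝓞 K) = P ∧ 𝔓.inertiaDeg (𝓞 K) ≤ m ∧
      𝔓.ramificationIdx (𝓞 K) ≤ e) {B : ℕ}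
    (hTB : finrank K L ≤ B * ∑ 𝔓 ∈ T, 𝔓.ramificationIdx (𝓞 K) * 𝔓.inertiaDeg (𝓞 K)) :
    ∃ h : ℕ → ℕ, Monotone h ∧ (∀ n, min (finrank K (fld K x)) (n + 1) ≤ h n) ∧
      (∀ n, h n ≤ (n + 1) ^ N) ∧ ∀ n s : ℕ,
        s * (lP P / e * (h n / B - (P.absNorm ^ (m * (N + 2)) : ℕ) * h (N * s))) ≤
          h n * (n * canH F q x + hC A a * ((c + q : ℕ) * (1 + Nat.log 2 n : ℕ)) +
            Real.log (h n)) := by
  classical
  set t := P.absNorm ^ (m * (N + 2)) with ht
  have hx : x ≠ 0 := by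
    intro h0
    rw [h0] at hxa
    exact zero_ne_one hxa
  set z : Fin (N + 1) → M := fun i => algebraMap L M (x i) with hz
  set ι : Type := QQ F z 0 with hι
  set p : ι → Fin (N + 1) → M := fun y => fun j => y.out (algebraMap L M (x j)) with hp
  have hpa : ∀ y, p y a₀ = 1 := by
    intro y
    simp only [hp, hxa, map_one]
  have hp0 : ∀ y, p y ≠ 0 := by
    intro y h0
    have h1 := hpa y
    rw [h0] at h1
    exact zero_ne_one h1
  have hinj : Function.Injective p := by
    intro y y' h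
    rw [← Quotient.out_equiv_out]
    refine ⟨1, one_ne_zero, ?_⟩
    rw [one_smul]
    exact h
  have hcard : finrank K (fld K x) ≤ Fintype.card ι := le_card_QQ x
  set h : ℕ → ℕ := fun n => finrank M (EL K p n) with hh
  have hlb : ∀ n, min (finrank K (fld K x)) (n + 1) ≤ h n := by
    intro n
    have h1 := le_finrank_EL (K := K) hpa hinj n
    exact (min_le_min_right _ hcard).trans h1
  refine ⟨h, fun k l hkl => Submodule.finrank_mono (EL_le hpa hkl), hlb,
    fun n => finrank_EL_le hpa n, ?_⟩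
  intro n s
  have hD1 : 1 ≤ finrank K (fld K x) := finrank_pos
  have hr1 : 1 ≤ h n := le_trans (le_min hD1 (by omega)) (hlb n)
  -- the good places
  choose G hG1 hG2 hG3 using fun σ : Gal(M/K) => sum_good (M := M) hP0 T
    (fun 𝔓 h𝔓 => ⟨(hT 𝔓 h𝔓).1, (hT 𝔓 h𝔓).2.1⟩) hTB σ
  set Bad : FinitePlace M → Finset ι := fun v =>
    Finset.univ.filter fun y => v ∉ G y.out with hBad
  have hBad' : ∀ v y, y ∉ Bad v ↔ v ∈ G y.out := by
    intro v y
    rw [hBad, Finset.mem_filter]
    simp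
  set g : FinitePlace M → ℝ := fun v => ew K v * (1 / (e : ℝ)) with hg
  have he' : (0 : ℝ) < e := by exact_mod_cast he1
  have hgpos : ∀ v ∈ TP M P, 0 < g v := fun v _ => mul_pos (ew_pos v) (by positivity)
  have hcl : ∀ v ∈ TP M P, Classes v p (Bad v) t (g v) := by
    intro v hv
    refine classes_of (m := m) hP0 hv hx he1 (fun y : ι => y.out) (Bad v) ?_
    intro y hy
    obtain ⟨w, hw, h1, h2⟩ := hG2 _ v ((hBad' v y).mp hy)
    exact ⟨w, hw, h1, (hT _ h2).2.2.1, (hT _ h2).2.2.2⟩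
  have hDM := finrank_pos' (L := M)
  have hDK := finrank_pos' (L := K)
  -- the sum of the weights
  have hΩ : ∑ v ∈ TP M P, ew K v = finrank ℚ M * lP P := by
    rw [sum_ew hP0]
    have hdeg : (finrank ℚ M : ℝ) = finrank ℚ K * finrank K M := by
      exact_mod_cast (finrank_mul_finrank ℚ K M).symm
    unfold lP
    rw [hdeg]
    field_simp
  have hBpos : (0 : ℝ) < B := by
    have h1 : 0 < finrank K L := finrank_pos
    rcases Nat.eq_zero_or_pos B with h0 | h0
    · rw [h0, zero_mul] at hTB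
      omega
    · exact_mod_cast h0
  have hw : ∀ y : ι, finrank ℚ M * lP P / (B * e) ≤
      ∑ v ∈ TP M P, if y ∉ Bad v then g v else 0 := by
    intro y
    simp only [hBad']
    rw [← Finset.sum_filter]
    have h3 : (TP M P).filter (fun v => v ∈ G y.out) = G y.out := by
      ext v
      rw [Finset.mem_filter]
      exact ⟨fun h => h.2, fun h => ⟨hG1 _ h, h⟩⟩
    rw [h3, ← hΩ]
    have h4 := hG3 y.out
    simp only [hg]
    rw [← Finset.sum_mul, div_le_iff₀ (by positivity)]
    calc ∑ v ∈ TP M P, ew K v ≤ B * ∑ v ∈ G y.out, ew K v := h4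
      _ = _ := by
        field_simp
  have hHp : ∀ y, canH F q (p y) ≤ canH F q x := by
    intro y
    have h1 : p y = fun i => y.out (z i) := rfl
    rw [h1, canH_gal, hz, canH_base]
  have hmain := hilb_ineq hB hq hF hc hp0 (TP M P) hR g hgpos Bad hcl hw hHp n s hr1
  have hW : ∑ v ∈ TP M P, g v = finrank ℚ M * lP P / e := by
    simp only [hg]
    rw [← Finset.sum_mul, hΩ]
    ring
  rw [hW] at hmain
  have h5 : (finrank ℚ M : ℝ) * (s * (lP P / e * (h n / B - (t : ℕ) * h (N * s)))) ≤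
      finrank ℚ M * (h n * (n * canH F q x +
        hC A a * ((c + q : ℕ) * (1 + Nat.log 2 n : ℕ)) + Real.log (h n))) := by
    refine le_trans (le_of_eq ?_) hmain
    simp only [hh]
    field_simp
  exact le_of_mul_le_mul_left h5 hDM

end

end Pool.Agent.H627.LU
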