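import Mathlib
import Pool.Agent.H627.LU.Pt
import Pool.Agent.H627.LU.Pr
import Pool.Agent.H627.LR.Gd
import Pool.Agent.H420R3.Main

/-!
The uniform lower bound.
-/

set_option autoImplicit false
set_option linter.unusedSectionVars false

namespace Pool.Agent.H627.LU

open NumberField Module MvPolynomial Filter Topology
open Pool.Agent.W238.Leh
open Pool.Agent.H627.LP hiding det_ineq det_ineq' local_gain
open Pool.Agent.H627.LR (GR GoodRed GoodK transfer_scale)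
open Pool.Agent.H420R3 (mi nv TP ew TP_nonempty mem_TP lP lP_pos sum_ew ew_pos NC)
open scoped Pointwise

noncomputable section

variable {K : Type} [Field K] [NumberField K] {N : ℕ}

lemma fld_smul {L : Type} [Field L] [Algebra K L] {b : L} (hb : b ≠ 0)
    (x : Fin (N + 1) → L) : fld K (b • x) = fld K x := by
  unfold fld
  congr 2
  funext ij
  simp only [Pi.smul_apply, smul_eq_mul]
  exact mul_div_mul_left _ _ hb

/-- **the lower bound** -/
theorem uniform {d : ℕ} (hd : 2 ≤ d) (hN : 1 ≤ N)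
    (F : Fin (N + 1) → MvPolynomial (Fin (N + 1)) K)
    (hF : ∀ i, (F i).IsHomogeneous d) (v : FinitePlace K) (hred : GoodRed v F)
    {ε : ℝ} (hε : 0 < ε) :
    ∃ C : ℕ, 0 < C ∧ ∀ (m B e R : ℕ), R = C * (B * (mi v).absNorm ^ m) ^ C →
      ∀ (L : Type) [Field L] [NumberField L] [Algebra K L] (T : Finset (Ideal (𝓞 L))),
      (∀ 𝔓 ∈ T, 𝔓.IsPrime ∧ 𝔓.under (𝓞 K) = mi v ∧ 𝔓.inertiaDeg (𝓞 K) ≤ m ∧
        𝔓.ramificationIdx (𝓞 K) ≤ e) →
      finrank K L ≤ B * ∑ 𝔓 ∈ T, 𝔓.ramificationIdx (𝓞 K) * 𝔓.inertiaDeg (𝓞 K) →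
      ∀ x : Fin (N + 1) → L, x ≠ 0 →
      (R : ℝ) * (e : ℝ) ^ ((N : ℝ) + ε) ≤ finrank K (fld K x) →
      ∃ h : ℝ, Tendsto (fun n : ℕ => Height.logHeight ((act F)^[n] x) /
          ((finrank ℚ L : ℝ) * (d : ℝ) ^ n)) atTop (𝓝 h) ∧ 1 / ((R : ℝ) * e) ≤ h := by
  obtain ⟨b, hb, hG⟩ := hred.exists_model hF
  have hP0 := H420R3.mi_ne_bot v
  set H : Fin (N + 1) → MvPolynomial (Fin (N + 1)) K := fun i => C (b : K) * F i with hH
  have hmor := fun z => hG.mor z
  obtain ⟨A, a, hBd⟩ := bds_of_mor (by omega) hG.hom (fun i s => by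
    obtain ⟨c, hc⟩ := hG.int i s
    rw [hc]
    exact RingOfIntegers.isIntegral_coe c) hmor
  obtain ⟨c, hc⟩ := exists_mem_span hmor
  have hlP := lP_pos (P := mi v) hP0
  have hPn : 0 < (mi v).absNorm := by
    rcases Nat.eq_zero_or_pos (mi v).absNorm with h0 | h0
    · exact absurd (Ideal.absNorm_eq_zero_iff.mp h0) hP0
    · exact h0
  have hE : 0 ≤ hC A a * ((c + d : ℕ) : ℝ) := mul_nonneg hBd.hC_nonneg (Nat.cast_nonneg _)
  obtain ⟨C₁, w, hC₁, hpar⟩ := params hlP hE hε hN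
  refine ⟨max ⌈C₁⌉₊ ((N + 2) * w) + 1, by omega, ?_⟩
  intro m B e R hR L _ _ _ T hT hTB x hx hDe
  have hB0 : 1 ≤ B := by
    rcases Nat.eq_zero_or_pos B with h0 | h0
    · rw [h0, zero_mul] at hTB
      have : 0 < finrank K L := finrank_pos
      omega
    · exact h0
  have he0 : 1 ≤ e := by
    by_contra hcon
    have h0 : e = 0 := by omega
    have hsum : ∑ 𝔓 ∈ T, 𝔓.ramificationIdx (𝓞 K) * 𝔓.inertiaDeg (𝓞 K) = 0 := by
      refine Finset.sum_eq_zero fun 𝔓 h𝔓 => ?_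
      have h1 := (hT 𝔓 h𝔓).2.2.2
      have h2 : 𝔓.ramificationIdx (𝓞 K) = 0 := by omega
      rw [h2, zero_mul]
    rw [hsum, mul_zero] at hTB
    have : 0 < finrank K L := finrank_pos
    omega
  obtain ⟨_, hlim⟩ := transfer_scale hb hF hd hBd hx
  refine ⟨_, hlim, ?_⟩
  obtain ⟨a₀, ha₀⟩ : ∃ a₀, x a₀ ≠ 0 := Function.ne_iff.mp hx
  set x' : Fin (N + 1) → L := (x a₀)⁻¹ • x with hx'
  have hx'a : x' a₀ = 1 := by
    simp only [hx', Pi.smul_apply, smul_eq_mul]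
    exact inv_mul_cancel₀ ha₀
  have hcan : canH H d x' = canH H d x := canH_smul hG.hom (inv_ne_zero ha₀) x
  have hfl : fld K x' = fld K x := fld_smul (inv_ne_zero ha₀) x
  obtain ⟨h, _, h1, h2, h3⟩ := points (M := NC K L) (F := H) (c := c) hP0 hBd hd hG.hom
    (fun m hm p hp => hc m (by omega) p hp) (fun w hw => hG.gr hP0 (by omega) hw) hx'a
    (m := m) (e := e) he0 T hT hTB
  rw [hcan] at h3
  rw [hfl] at h1
  have ht : 1 ≤ (mi v).absNorm ^ (m * (N + 2)) := Nat.one_le_pow _ _ hPn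
  have hBq : 1 ≤ B * (mi v).absNorm ^ m := Nat.mul_pos hB0 (Nat.pow_pos hPn)
  have hR1 : C₁ * ((B * (mi v).absNorm ^ (m * (N + 2)) : ℕ) : ℝ) ^ w ≤ R := by
    have h4 : (B * (mi v).absNorm ^ (m * (N + 2))) ^ w ≤
        (B * (mi v).absNorm ^ m) ^ (max ⌈C₁⌉₊ ((N + 2) * w) + 1) := by
      calc (B * (mi v).absNorm ^ (m * (N + 2))) ^ w ≤
          ((B * (mi v).absNorm ^ m) ^ (N + 2)) ^ w := by
            apply Nat.pow_le_pow_left
            rw [mul_pow, ← pow_mul]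
            exact Nat.mul_le_mul_right _ (Nat.le_self_pow (by omega) B)
        _ = (B * (mi v).absNorm ^ m) ^ ((N + 2) * w) := by rw [← pow_mul]
        _ ≤ _ := by
            apply Nat.pow_le_pow_right hBq
            exact (le_max_right _ _).trans (Nat.le_succ _)
    have h5 : C₁ ≤ ((max ⌈C₁⌉₊ ((N + 2) * w) + 1 : ℕ) : ℝ) := by
      refine (Nat.le_ceil C₁).trans ?_
      exact_mod_cast (le_max_left _ _).trans (Nat.le_succ _)
    rw [hR]
    push_cast
    have h6 : (((B * (mi v).absNorm ^ (m * (N + 2))) ^ w : ℕ) : ℝ) ≤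
        (((B * (mi v).absNorm ^ m) ^ (max ⌈C₁⌉₊ ((N + 2) * w) + 1) : ℕ) : ℝ) := by
      exact_mod_cast h4
    push_cast at h5 h6
    exact mul_le_mul h5 h6 (by positivity) (by positivity)
  exact hpar B _ hB0 ht (finrank K (fld K x)) e finrank_pos he0 _ h h1 h2
    (fun n s => (h3 n s).trans (le_of_eq (by ring))) R hR1 hDe

end

end Pool.Agent.H627.LU
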